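import Pool.Agent.Lib.MP_a1a577_an.Final

set_option autoImplicit false

namespace Pool.Agent.Results.MP_a1a577_an.SingleRootWorst

open Pool.Agent.Lib.MP_a1a577_an Polynomial

/-- Let `H` be an `n`-dimensional complex Hilbert space, `n ≥ 1`, and `0 < r < 1`. For every `f`
holomorphic on the unit disc there is a point `a` with `|a| = r` such that `(z - a)^n` is a worst
polynomial for `f` in `P_{n,r}`. (The first part says that the maximum in the definition of `C(p,f)`
exists, so `maxNorm` is never a junk value.) -/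
theorem result (H : Type*) [NormedAddCommGroup H] [InnerProductSpace ℂ H] [FiniteDimensional ℂ H]
    (n : ℕ) (hH : Module.finrank ℂ H = n) (hn : 1 ≤ n) (r ρ : ℝ) (hr0 : 0 < r) (hr1 : r < 1)
    (hρ : r < ρ) (hρ1 : ρ < 1) (f : ℂ → ℂ) (hf : DifferentiableOn ℂ f (Metric.ball 0 1)) :
    (∀ p ∈ rootsInDisc n r, IsGreatest (normValues H ρ f p) (maxNorm H ρ f p)) ∧
    ∃ a : ℂ, ‖a‖ = r ∧ IsWorst H n r ρ f ((X - C a) ^ n) :=
  main H n hH hn r ρ hr0 hr1 hρ hρ1 f hf

end Pool.Agent.Results.MP_a1a577_an.SingleRootWorst
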